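import Mathlib
import Pool.Agent.Helper116_MU.Rel

set_option autoImplicit false

/-!
# The number `ζ(3)/π³` against the tails of the integrals for `π` and `ζ(3)`

For a rational number `x ≥ 0` let `T(x)` be the integral of `exp (-s² - t²)` over the points `(s, t)` of the plane with
`s² ≥ x` or `t² ≥ x`, and let `R(x) = 1/12 * ∫ log(t_0 t_1 / t_2²)³ exp (-t_0 - t_1 - t_2) dt`, the integral being
over the points of the positive octant with `max t_j ≥ x`.

(1) `T(0) = π` and `R(0) = ζ(3)`.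

Let `x_0, z_1, …, z_m > 0` be distinct rational numbers, and let `w_1, …, w_l > 0` be distinct rational numbers.

(2) For every `D` there are `κ` and `C > 0` such that for all nonzero polynomials `P_1`, `P_2` (in two variables) and `Q`
(in `2 + m + l` variables) with integer coefficients, of total degree at most `D` and with coefficients of absolute
value at most `H` at least one of the three numbers
`|P_1(e, T(x_0))|`, `|P_2(e, ζ(3)/π³)|`, `|Q(e, π, T(z_1), …, T(z_m), R(w_1), …, R(w_l))|` is at least `C H^(-κ)`.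
(One may take `P_2 = q X_1 - p`: then the second number is `|q ζ(3)/π³ - p|`.)

(3) If `ζ(3)/π³` and `T(x_0)` are algebraic over `ℚ(e)` (for instance if `ζ(3)/π³` is rational and `T(x_0)` algebraic),
then `e, π, T(z_1), …, T(z_m), R(w_1), …, R(w_l)` are algebraically independent, with a measure which is polynomial
in the height.

Proof.  `T(x) = π - f(x)` and `R(x) = ζ(3) - g(x)` where `f(x)`, `g(x)` are polynomials in values of E-functions. A
measure in the theorem of Siegel and Shidlovskii gives a measure for `e` and the numbers `T(z_j) - T(x_0)`,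
`π - T(x_0)`, `g(w_j)`. First `T(x_0)` is eliminated, then the unknown number `ρ = ζ(3)/π³`, which occurs in
`R(w) = ρ π³ - g(w)`.
-/

namespace Pool.Agent.Results.MP_e47f08_nt.RatioAndTails

open Set MeasureTheory

/-- `T(x)` -/
noncomputable def T (x : ℚ) : ℝ :=
  ∫ p in {p : ℝ × ℝ | (x : ℝ) ≤ p.1 ^ 2 ∨ (x : ℝ) ≤ p.2 ^ 2}, Real.exp (-(p.1 ^ 2 + p.2 ^ 2))

/-- `R(x)` -/
noncomputable def R (x : ℚ) : ℝ :=
  1 / 12 * ∫ t in {t : Fin 3 → ℝ | (∀ j, 0 < t j) ∧ ∃ j, (x : ℝ) ≤ t j},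
    Real.log (t 0 * t 1 / t 2 ^ 2) ^ 3 * Real.exp (-(t 0 + t 1 + t 2))

/-- `P` is not zero, its total degree is at most `D` and its coefficients are at most `H` in absolute
value -/
def Bounded {σ : Type} (D : ℕ) (H : ℝ) (P : MvPolynomial σ ℤ) : Prop :=
  P ≠ 0 ∧ P.totalDegree ≤ D ∧ ∀ s, |((MvPolynomial.coeff s P : ℤ) : ℝ)| ≤ H

/-- a measure of algebraic independence for the numbers `v_i`, polynomial in the height `H` -/
def Bound {σ : Type} (v : σ → ℝ) : Prop :=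
  ∀ d : ℕ, 0 < d → ∃ C : ℝ, 0 < C ∧ ∀ H : ℝ, 2 ≤ H → ∀ P : MvPolynomial σ ℤ, Bounded d H P →
    H ^ (-C) ≤ |MvPolynomial.aeval v P|

/-- `P(e, x) = 0` for some polynomial `P ≠ 0` with integer coefficients -/
def Related (x : ℝ) : Prop := ∃ P : MvPolynomial (Fin 2) ℤ, P ≠ 0 ∧ MvPolynomial.aeval ![Real.exp 1, x] P = 0

/-- `ζ(3)/π³` -/
noncomputable def ratio : ℝ := (∑' n : ℕ, 1 / ((n : ℝ) + 1) ^ 3) / Real.pi ^ 3

/-- the numbers `e, π, T(z_1), …, T(z_m), R(w_1), …, R(w_l)` -/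
noncomputable def numbers {m l : ℕ} (z : Fin m → ℚ) (w : Fin l → ℚ) : Fin 2 ⊕ Fin m ⊕ Fin l → ℝ :=
  Sum.elim ![Real.exp 1, Real.pi] (Sum.elim (fun j => T (z j)) (fun j => R (w j)))

theorem T_zero : T 0 = Real.pi := by
  have hfun : (fun p : ℝ × ℝ => Real.exp (-(p.1 ^ 2 + p.2 ^ 2))) =
      fun p : ℝ × ℝ => Real.exp (-p.1 ^ 2) * Real.exp (-p.2 ^ 2) := by
    funext p
    rw [← Real.exp_add]; congr 1; ring
  have hset : {p : ℝ × ℝ | ((0 : ℚ) : ℝ) ≤ p.1 ^ 2 ∨ ((0 : ℚ) : ℝ) ≤ p.2 ^ 2} = univ := by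
    refine eq_univ_of_forall fun p => Or.inl ?_
    rw [Rat.cast_zero]
    positivity
  rw [T, hset, setIntegral_univ, hfun, Measure.volume_eq_prod,
    integral_prod_mul (fun t : ℝ => Real.exp (-t ^ 2)) (fun t : ℝ => Real.exp (-t ^ 2))]
  have h3 := integral_gaussian 1
  simp only [neg_mul, one_mul, div_one] at h3
  rw [h3, Real.mul_self_sqrt Real.pi_pos.le]

open Pool.Agent.R352.Q Pool.Agent.R352.E in
theorem full_integral :
    ∫ t in cube 3 (Ioi 0), Real.log (t 0 * t 1 / t 2 ^ 2) ^ 3 * Real.exp (-(t 0 + t 1 + t 2)) = 12 * zt 3 := by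
  have h1 : ((∫ t in cube 3 (Ioi 0), Real.log (t 0 * t 1 / t 2 ^ 2) ^ 3 *
      Real.exp (-(t 0 + t 1 + t 2)) : ℝ) : ℂ) = ((12 * zt 3 : ℝ) : ℂ) := by
    rw [show ((∫ t in cube 3 (Ioi 0), Real.log (t 0 * t 1 / t 2 ^ 2) ^ 3 *
      Real.exp (-(t 0 + t 1 + t 2)) : ℝ) : ℂ) = ∫ t in cube 3 (Ioi 0), ((Real.log (t 0 * t 1 / t 2 ^ 2) ^ 3 *
        Real.exp (-(t 0 + t 1 + t 2)) : ℝ) : ℂ) from integral_ofReal.symm]
    have h2 : ∫ t in cube 3 (Ioi 0), ((Real.log (t 0 * t 1 / t 2 ^ 2) ^ 3 *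
        Real.exp (-(t 0 + t 1 + t 2)) : ℝ) : ℂ) =
        ∫ t in cube 3 (Ioi 0), FI 3 (![1, 1, -2] : Fin 3 → ℂ) t := by
      refine setIntegral_congr_fun (meas_cube 3 measurableSet_Ioi) fun t ht => ?_
      exact (FI_three t fun j => ht j (mem_univ j)).symm
    rw [h2, cube, cube_three subset_rfl deriv_Fs_Ioi, const_Fs_Ioi]
    have h3 : PowerSeries.coeff 2 PC = (-1) ^ 3 * zt 3 := coeff_PC (k := 3) (by norm_num)
    rw [h3]
    norm_num
  exact_mod_cast h1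

theorem R_zero : R 0 = Pool.Agent.R352.E.zt 3 := by
  have h1 : {t : Fin 3 → ℝ | (∀ j, 0 < t j) ∧ ∃ j, (((0 : ℚ)) : ℝ) ≤ t j} =
      Pool.Agent.R352.Q.cube 3 (Ioi 0) := by
    ext t
    simp only [Pool.Agent.R352.Q.cube, mem_setOf_eq, mem_univ_pi, mem_Ioi, Rat.cast_zero]
    exact ⟨fun h => h.1, fun h => ⟨h, 0, (h 0).le⟩⟩
  rw [R, h1, full_integral]
  ring

theorem R_pos {x : ℚ} (hx : 0 < x) : R x = Pool.Agent.R352.Q.Rk 3 x := by
  have hx' : (0 : ℝ) < x := by exact_mod_cast hx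
  have h1 : {t : Fin 3 → ℝ | (∀ j, 0 < t j) ∧ ∃ j, (x : ℝ) ≤ t j} =
      Pool.Agent.R352.Q.cube 3 (Ioi 0) \ Pool.Agent.R352.Q.cube 3 (Ioo 0 (x : ℝ)) := by
    ext t
    simp only [Pool.Agent.R352.Q.cube, mem_setOf_eq, mem_sdiff, mem_univ_pi, mem_Ioi, mem_Ioo]
    constructor
    · rintro ⟨h1, j, h2⟩
      exact ⟨h1, fun h => absurd (h j).2 (not_lt.2 h2)⟩
    · rintro ⟨h1, h2⟩
      push Not at h2
      obtain ⟨j, hj⟩ := h2
      exact ⟨h1, j, hj (h1 j)⟩
  rw [R, h1, Pool.Agent.R352.Q.three_rest hx']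
  ring

theorem T_pos {x : ℚ} (hx : 0 < x) : Real.pi - Pool.Agent.Helper116_MU.cZ 0 x = T x := by
  have hx'' : (0 : ℝ) < x := by exact_mod_cast hx
  rw [Pool.Agent.Helper116_MU.cZ, if_neg hx.ne', if_pos rfl]
  exact (Pool.Agent.Helper116_EM.TT_eq hx'').symm

theorem R_pos' {x : ℚ} (hx : 0 < x) : Pool.Agent.R352.E.zt 3 - Pool.Agent.Helper116_MU.cZ 1 x = R x := by
  rw [Pool.Agent.Helper116_MU.cZ, if_neg hx.ne', if_neg one_ne_zero, R_pos hx, Pool.Agent.R352.Q.Rk]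

theorem ratio_mul : ratio * Real.pi ^ 3 = Pool.Agent.R352.E.zt 3 := by
  have h : Real.pi ^ 3 ≠ 0 := pow_ne_zero _ Real.pi_ne_zero
  rw [ratio, div_mul_cancel₀ _ h]
  rfl

theorem coeff_rename_bound {ι κ : Type*} (e : ι → κ) (he : Function.Injective e) (P : MvPolynomial ι ℤ) {H : ℝ}
    (hH : 0 ≤ H) (h : ∀ s, |((MvPolynomial.coeff s P : ℤ) : ℝ)| ≤ H) (s : κ →₀ ℕ) :
    |((MvPolynomial.coeff s (MvPolynomial.rename e P) : ℤ) : ℝ)| ≤ H := by
  classical
  by_cases hs : MvPolynomial.coeff s (MvPolynomial.rename e P) = 0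
  · rw [hs]; simpa using hH
  · obtain ⟨u, hu, _⟩ := MvPolynomial.coeff_rename_ne_zero _ _ _ hs
    rw [← hu, MvPolynomial.coeff_rename_mapDomain e he]
    exact h u

theorem main {x₀ : ℚ} (hx₀ : 0 < x₀) {m l : ℕ} (z : Fin m → ℚ) (hz : Function.Injective z)
    (hz0 : ∀ j, 0 < z j ∧ z j ≠ x₀) (w : Fin l → ℚ) (hw : Function.Injective w) (hw0 : ∀ j, 0 < w j) (D : ℕ) :
    ∃ (κ : ℕ) (C : ℝ), 0 < C ∧ ∀ H : ℝ, 1 ≤ H → ∀ (P₁ P₂ : MvPolynomial (Fin 2) ℤ)
      (Q : MvPolynomial (Fin 2 ⊕ Fin m ⊕ Fin l) ℤ), Bounded D H P₁ → Bounded D H P₂ → Bounded D H Q →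
      C / H ^ κ ≤ |MvPolynomial.aeval ![Real.exp 1, T x₀] P₁| ∨
      C / H ^ κ ≤ |MvPolynomial.aeval ![Real.exp 1, ratio] P₂| ∨
      C / H ^ κ ≤ |MvPolynomial.aeval (numbers z w) Q| := by
  classical
  let E : (Unit ⊕ Fin m ⊕ Fin l) ≃ Fin (Fintype.card (Unit ⊕ Fin m ⊕ Fin l)) := Fintype.equivFin _
  let G : Unit ⊕ Fin m ⊕ Fin l → Fin 2 × ℚ :=
    Sum.elim (fun _ => (0, 0)) (Sum.elim (fun j => (0, z j)) (fun j => (1, w j)))
  have hG : Function.Injective G := by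
    rintro (a | a | a) (b | b | b) h
    · rfl
    · exact absurd (Prod.mk.inj h).2 (hz0 b).1.ne
    · exact absurd (Prod.mk.inj h).1 (by decide)
    · exact absurd (Prod.mk.inj h).2 (hz0 a).1.ne'
    · rw [hz (Prod.mk.inj h).2]
    · exact absurd (Prod.mk.inj h).1 (by decide)
    · exact absurd (Prod.mk.inj h).1 (by decide)
    · exact absurd (Prod.mk.inj h).1 (by decide)
    · rw [hw (Prod.mk.inj h).2]
  let g : Fin (Fintype.card (Unit ⊕ Fin m ⊕ Fin l)) → Fin 2 := fun k => (G (E.symm k)).1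
  let zz : Fin (Fintype.card (Unit ⊕ Fin m ⊕ Fin l)) → ℚ := fun k => (G (E.symm k)).2
  let x : Fin 2 → ℚ := ![x₀, 0]
  have hM := Pool.Agent.Helper116_MU.zp_meas (c := 1) x (by
      intro i
      fin_cases i
      · exact hx₀.le
      · exact le_rfl) g zz (by
      intro k k' h
      apply E.symm.injective
      apply hG
      exact h) (by
      intro k
      show 0 ≤ (G (E.symm k)).2
      rcases E.symm k with a | a | a
      · exact le_rfl
      · exact (hz0 a).1.le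
      · exact (hw0 a).le) (by
      intro k
      show (G (E.symm k)).2 ≠ x (G (E.symm k)).1
      rcases E.symm k with a | a | a
      · exact hx₀.ne
      · exact (hz0 a).2
      · exact (hw0 a).ne')
  have hj₀ : g (E (Sum.inl ())) = 0 := by
    show (G (E.symm (E (Sum.inl ())))).1 = 0
    rw [E.symm_apply_apply]
    rfl
  obtain ⟨κ, C, hC, h⟩ := Pool.Agent.Helper116_MU.rel_multi (Real.exp 1) _ hM g (E (Sum.inl ())) hj₀ 3 (T x₀) ratio D
  refine ⟨κ, C / 2, by positivity, fun H hH P₁ P₂ Q hP1 hP2 hQ => ?_⟩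
  by_contra hcon
  push Not at hcon
  obtain ⟨h1, h2, h3⟩ := hcon
  let r : Fin 2 ⊕ Fin m ⊕ Fin l → Option (Fin (Fintype.card (Unit ⊕ Fin m ⊕ Fin l))) :=
    Sum.elim ![none, some (E (Sum.inl ()))] (fun a => some (E (Sum.inr a)))
  have hr : Function.Injective r := by
    rintro (a | a) (b | b) hab
    · fin_cases a <;> fin_cases b
      · rfl
      · exact absurd hab (by simp [r])
      · exact absurd hab (by simp [r])
      · rfl
    · fin_cases a
      · exact absurd hab (by simp [r])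
      · exact absurd hab (by simp [r])
    · fin_cases b
      · exact absurd hab (by simp [r])
      · exact absurd hab (by simp [r])
    · simp only [r, Sum.elim_inr, Option.some.injEq] at hab
      rw [Sum.inr_injective (E.injective hab)]
  have hT : T x₀ + Pool.Agent.Helper116_MU.cZ 0 x₀ = Real.pi := by rw [← T_pos hx₀]; ring
  have hc0 : ∀ i, Pool.Agent.Helper116_MU.cZ i 0 = 0 := fun i => if_pos rfl
  have h4 := h P₁ P₂ (MvPolynomial.rename r Q) hP1.1 hP2.1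
    (fun h0 => hQ.1 (MvPolynomial.rename_injective _ hr (by rw [h0, map_zero]))) hP1.2.1 hP2.2.1
    ((MvPolynomial.totalDegree_rename_le _ _).trans hQ.2.1) H hH hP1.2.2 hP2.2.2
    (coeff_rename_bound r hr Q (by linarith) hQ.2.2) (C / 2 / H ^ κ) h1.le h2.le (by
      rw [MvPolynomial.aeval_rename]
      refine le_trans (le_of_eq ?_) h3.le
      congr 3
      have hπ : T x₀ + (Pool.Agent.Helper116_MU.cZ (g (E (Sum.inl ()))) (x (g (E (Sum.inl ())))) -
          Pool.Agent.Helper116_MU.cZ (g (E (Sum.inl ()))) (zz (E (Sum.inl ())))) = Real.pi := by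
        have e1 : g (E (Sum.inl ())) = 0 := hj₀
        have e2 : zz (E (Sum.inl ())) = 0 := by
          show (G (E.symm (E (Sum.inl ())))).2 = 0
          rw [E.symm_apply_apply]
          rfl
        rw [e1, e2]
        show T x₀ + (Pool.Agent.Helper116_MU.cZ 0 x₀ - Pool.Agent.Helper116_MU.cZ 0 0) = Real.pi
        rw [hc0, sub_zero, hT]
      funext a
      rcases a with a | a | a
      · fin_cases a
        · rfl
        · show (if g (E (Sum.inl ())) = 0 then _ else _) = Real.pi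
          rw [if_pos hj₀]
          exact hπ
      · have e1 : g (E (Sum.inr (Sum.inl a))) = 0 := by
          show (G (E.symm (E (Sum.inr (Sum.inl a))))).1 = 0
          rw [E.symm_apply_apply]; rfl
        have e2 : zz (E (Sum.inr (Sum.inl a))) = z a := by
          show (G (E.symm (E (Sum.inr (Sum.inl a))))).2 = z a
          rw [E.symm_apply_apply]; rfl
        show (if g (E (Sum.inr (Sum.inl a))) = 0 then _ else _) = T (z a)
        rw [if_pos e1, e1, e2]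
        show T x₀ + (Pool.Agent.Helper116_MU.cZ 0 x₀ - Pool.Agent.Helper116_MU.cZ 0 (z a)) = T (z a)
        rw [← T_pos (hz0 a).1]
        linarith
      · have e1 : g (E (Sum.inr (Sum.inr a))) = 1 := by
          show (G (E.symm (E (Sum.inr (Sum.inr a))))).1 = 1
          rw [E.symm_apply_apply]; rfl
        have e2 : zz (E (Sum.inr (Sum.inr a))) = w a := by
          show (G (E.symm (E (Sum.inr (Sum.inr a))))).2 = w a
          rw [E.symm_apply_apply]; rfl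
        show (if g (E (Sum.inr (Sum.inr a))) = 0 then _ else _) = R (w a)
        rw [if_neg (by rw [e1]; decide), hπ, ratio_mul, e1, e2]
        show Pool.Agent.Helper116_MU.cZ 1 0 - Pool.Agent.Helper116_MU.cZ 1 (w a) + Pool.Agent.R352.E.zt 3 = R (w a)
        rw [hc0, ← R_pos' (hw0 a)]
        ring)
  have h5 : H ^ κ * (C / 2 / H ^ κ) = C / 2 := by field_simp
  rw [h5] at h4
  linarith

theorem bound_of {σ : Type} (v : σ → ℝ) (h : ∀ d : ℕ, ∃ (κ : ℕ) (c : ℝ), 0 < c ∧ ∀ H : ℝ, 2 ≤ H →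
    ∀ Q : MvPolynomial σ ℤ, Bounded d H Q → c / H ^ κ ≤ |MvPolynomial.aeval v Q|) : Bound v := by
  intro d _
  obtain ⟨κ, c, hc, hm⟩ := h d
  obtain ⟨k, hk⟩ := exists_pow_lt_of_lt_one hc (show (1 / 2 : ℝ) < 1 by norm_num)
  refine ⟨(κ + k + 1 : ℕ), by positivity, fun H hH P hP => le_trans ?_ (hm H hH P hP)⟩
  have hH0 : 0 < H := by linarith
  rw [Real.rpow_neg hH0.le, Real.rpow_natCast, le_div_iff₀ (by positivity), ← div_eq_inv_mul,
    div_le_iff₀ (by positivity)]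
  have h1 : (2 : ℝ) ^ k ≤ H ^ (k + 1) := by
    calc (2 : ℝ) ^ k ≤ H ^ k := pow_le_pow_left₀ (by norm_num) hH k
      _ ≤ H ^ (k + 1) := pow_le_pow_right₀ (by linarith) (by omega)
  have h2 : 1 < c * 2 ^ k := by
    rw [one_div, inv_pow, inv_lt_iff_one_lt_mul₀ (by positivity)] at hk
    linarith
  have h3 : 1 ≤ c * H ^ (k + 1) := by nlinarith
  calc H ^ κ = H ^ κ * 1 := (mul_one _).symm
    _ ≤ H ^ κ * (c * H ^ (k + 1)) := mul_le_mul_of_nonneg_left h3 (by positivity)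
    _ = c * H ^ (κ + k + 1) := by ring

theorem Bound.indep {σ : Type} {v : σ → ℝ} (h : Bound v) : AlgebraicIndependent ℚ v := by
  have h2 : AlgebraicIndependent ℤ v := by
    rw [algebraicIndependent_iff]
    intro P hP
    by_contra h0
    obtain ⟨C, hC, hm⟩ := h (P.totalDegree + 1) (Nat.succ_pos _)
    have h1 := hm (2 + Pool.Agent.Helper116_EM.ml P) (by linarith [Pool.Agent.Helper116_EM.ml_nonneg P]) P
      ⟨h0, Nat.le_succ _, fun s => (Pool.Agent.Helper116_EM.coeff_le_ml P s).trans (by linarith)⟩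
    rw [hP, abs_zero] at h1
    have h3 : 0 < (2 + Pool.Agent.Helper116_EM.ml P) ^ (-C) :=
      Real.rpow_pos_of_pos (by linarith [Pool.Agent.Helper116_EM.ml_nonneg P]) _
    linarith
  have : Algebra.IsAlgebraic ℤ ℚ := ⟨fun q => (IsFractionRing.isAlgebraic_iff ℤ ℚ ℚ).2 (isAlgebraic_algebraMap q)⟩
  exact h2.extendScalars ℚ

theorem of_related {x₀ : ℚ} (hx₀ : 0 < x₀) {m l : ℕ} (z : Fin m → ℚ) (hz : Function.Injective z)
    (hz0 : ∀ j, 0 < z j ∧ z j ≠ x₀) (w : Fin l → ℚ) (hw : Function.Injective w) (hw0 : ∀ j, 0 < w j)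
    (hr : Related ratio) (hT : Related (T x₀)) : Bound (numbers z w) := by
  classical
  obtain ⟨P₂, hP20, hP2⟩ := hr
  obtain ⟨P₁, hP10, hP1⟩ := hT
  have hn1 := Pool.Agent.Helper116_EM.ml_nonneg P₁
  have hn2 := Pool.Agent.Helper116_EM.ml_nonneg P₂
  obtain ⟨H₀, hH₀⟩ : ∃ H₀ : ℝ, H₀ = 1 + Pool.Agent.Helper116_EM.ml P₁ + Pool.Agent.Helper116_EM.ml P₂ := ⟨_, rfl⟩
  have hH₀1 : 1 ≤ H₀ := by rw [hH₀]; linarith
  refine bound_of _ fun d => ?_
  obtain ⟨κ, C, hC, h⟩ := main hx₀ z hz hz0 w hw hw0 (d + P₁.totalDegree + P₂.totalDegree)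
  refine ⟨κ, C / H₀ ^ κ, by positivity, fun H hH Q hQ => ?_⟩
  have hle : 1 ≤ H₀ * H := one_le_mul_of_one_le_of_one_le hH₀1 (by linarith)
  have hle1 : H₀ ≤ H₀ * H := le_mul_of_one_le_right (by linarith) (by linarith)
  have hle2 : H ≤ H₀ * H := le_mul_of_one_le_left (by linarith) hH₀1
  have h1 := h (H₀ * H) hle P₁ P₂ Q
    ⟨hP10, by omega, fun s => (Pool.Agent.Helper116_EM.coeff_le_ml P₁ s).trans (by linarith)⟩
    ⟨hP20, by omega, fun s => (Pool.Agent.Helper116_EM.coeff_le_ml P₂ s).trans (by linarith)⟩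
    ⟨hQ.1, hQ.2.1.trans (by omega), fun s => (hQ.2.2 s).trans hle2⟩
  have hpos : 0 < C / (H₀ * H) ^ κ := by positivity
  rcases h1 with h1 | h1 | h1
  · exfalso
    rw [hP1, abs_zero] at h1
    linarith
  · exfalso
    rw [hP2, abs_zero] at h1
    linarith
  · refine le_trans (le_of_eq ?_) h1
    rw [div_div, mul_pow]

theorem result :
    -- (1)
    (T 0 = Real.pi ∧ R 0 = ∑' n : ℕ, 1 / ((n : ℝ) + 1) ^ 3) ∧
    ∀ (x₀ : ℚ), 0 < x₀ → ∀ (m l : ℕ) (z : Fin m → ℚ), Function.Injective z → (∀ j, 0 < z j ∧ z j ≠ x₀) →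
      ∀ (w : Fin l → ℚ), Function.Injective w → (∀ j, 0 < w j) →
      -- (2)
      (∀ D : ℕ, ∃ (κ : ℕ) (C : ℝ), 0 < C ∧ ∀ H : ℝ, 1 ≤ H → ∀ (P₁ P₂ : MvPolynomial (Fin 2) ℤ)
        (Q : MvPolynomial (Fin 2 ⊕ Fin m ⊕ Fin l) ℤ), Bounded D H P₁ → Bounded D H P₂ → Bounded D H Q →
        C / H ^ κ ≤ |MvPolynomial.aeval ![Real.exp 1, T x₀] P₁| ∨
        C / H ^ κ ≤ |MvPolynomial.aeval ![Real.exp 1, ratio] P₂| ∨
        C / H ^ κ ≤ |MvPolynomial.aeval (numbers z w) Q|) ∧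
      -- (3)
      (Related ratio → Related (T x₀) → AlgebraicIndependent ℚ (numbers z w) ∧ Bound (numbers z w)) := by
  refine ⟨⟨T_zero, R_zero⟩, fun x₀ hx₀ m l z hz hz0 w hw hw0 => ⟨main hx₀ z hz hz0 w hw hw0, fun hr hT => ?_⟩⟩
  have h := of_related hx₀ z hz hz0 w hw hw0 hr hT
  exact ⟨h.indep, h⟩

end Pool.Agent.Results.MP_e47f08_nt.RatioAndTails
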