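import Mathlib
import Pool.Agent.Helper927_jm.Tup

set_option autoImplicit false

/-!
# `ζ(3)/π³` in a family of ratios of tails

For an integer `k ≥ 2` let `ω = exp (2 π i / k)`. For a rational number `x ≥ 0` let `R_k(x)` be the number
`(-1)^k / k! * ∫ (∑_j ω^j log t_j)^k exp (-∑_j t_j) dt`, the integral being over the points of the octant
`(0, ∞)^k` with `max t_j ≥ x`.

(1) `R_k(x)` is real and `R_k(0) = ζ(k)`; in particular `R_2(0) = π² / 6`, so that
`R_3(0)² / R_2(0)³ = 216 (ζ(3)/π³)²`.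

(2) Let `K` be a finite set of integers `k ≥ 2`. The numbers `e` and `R_k(x)`, `k ∈ K`, are algebraically
independent for all rational `x ≥ 0` with at most `|K|` exceptions.

(3) If `R_3(x)² / R_2(x)³` is algebraic over `ℚ(e)`, then `x` is one of the at most two exceptions for
`K = {2, 3}`.

(4) If `ζ(3)/π³` is algebraic over `ℚ(e)`, for instance rational, then `e`, `R_2(x)` and `R_3(x)` are
algebraically independent for all positive rational `x` with at most one exception.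

Proof of (2).  Suppose that there are `n + 1` exceptions `x_0, …, x_n`, `n = |K|`. For each of them `e` and at
most `n - 1` further numbers generate a field over which all `R_k(x_i)`, `k ∈ K`, are algebraic. So `e` and the
`n ^ 2` numbers `R_k(x_i) - R_k(x_0)`, `1 ≤ i ≤ n`, are algebraic over a field generated by `n ^ 2` numbers. But they
are algebraically independent, by the theorem of Siegel and Shidlovskii (starting file
`Pool/Agent/R352/Q/Ind.lean`).
-/

namespace Pool.Agent.Results.MP_e47f08_nt.TailRatios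

open Set MeasureTheory

/-- `ω = exp (2 π i / k)` -/
noncomputable def root (k : ℕ) : ℂ := Complex.exp (2 * Real.pi * Complex.I / k)

/-- `(∑_j ω^j log t_j)^k exp (-∑_j t_j)` -/
noncomputable def integrand (k : ℕ) (t : Fin k → ℝ) : ℂ :=
  (∑ j : Fin k, root k ^ (j : ℕ) * (Real.log (t j) : ℂ)) ^ k * ((Real.exp (-∑ j, t j) : ℝ) : ℂ)

/-- the points of `(0, ∞)^k` with `max t_j ≥ x` -/
def rest (k : ℕ) (x : ℝ) : Set (Fin k → ℝ) := {t | (∀ j, 0 < t j) ∧ ∃ j, x ≤ t j}

/-- `R_k(x)`, as a complex number -/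
noncomputable def tailIntegral (k : ℕ) (x : ℚ) : ℂ :=
  (-1) ^ k / k.factorial * ∫ t in rest k x, integrand k t

/-- `R_k(x)`, as a real number -/
noncomputable def R (k : ℕ) (x : ℚ) : ℝ := (tailIntegral k x).re

/-- the family consisting of `e` and the `R_k(x)`, `k ∈ K` -/
noncomputable def tuple (K : Finset ℕ) (x : ℚ) : Option K → ℝ := fun z => z.elim (Real.exp 1) (fun k => R k x)

/-- `y` is algebraic over `ℚ(e)` -/
def AlgebraicOverE (y : ℝ) : Prop := IsAlgebraic (IntermediateField.adjoin ℚ {Real.exp 1}) y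

open Pool.Agent.R352.E (Mt clF subset_clF clF_mono of_pow card_le mem_clF)

theorem ratio_dependent (x : ℚ) (h : AlgebraicOverE (R 3 x ^ 2 / R 2 x ^ 3)) :
    ¬ AlgebraicIndependent ℚ (tuple {2, 3} x) := by
  intro hAI
  have m2 : (2 : ℕ) ∈ ({2, 3} : Finset ℕ) := by simp
  have m3 : (3 : ℕ) ∈ ({2, 3} : Finset ℕ) := by simp
  have h2 : R 2 x ≠ 0 := by
    have h3 : Transcendental ℚ (R 2 x) := hAI.transcendental (some ⟨2, m2⟩)
    intro h0
    rw [h0] at h3
    exact h3 isAlgebraic_zero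
  set T : Set ℝ := {Real.exp 1, R 2 x} with hT
  have he : Real.exp 1 ∈ clF T := subset_clF T (Or.inl rfl)
  have hr2 : R 2 x ∈ clF T := subset_clF T (Or.inr rfl)
  have hr : R 3 x ^ 2 / R 2 x ^ 3 ∈ clF T := by
    have h3 : R 3 x ^ 2 / R 2 x ^ 3 ∈ clF {Real.exp 1} := mem_clF.2 h
    refine clF_mono ?_ h3
    rintro _ rfl
    exact Or.inl rfl
  have hr3 : R 3 x ∈ clF T := by
    refine of_pow two_ne_zero ?_
    have h4 := (clF T).mul_mem hr ((clF T).pow_mem hr2 3)
    rwa [div_mul_cancel₀ _ (pow_ne_zero 3 h2)] at h4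
  have h5 := card_le hAI (T := T) (fun z => by
    rcases z with _ | ⟨k, hk⟩
    · exact he
    · have hk' : k = 2 ∨ k = 3 := by simpa using hk
      rcases hk' with rfl | rfl
      · exact hr2
      · exact hr3)
  have h6 : Mt.eRk T ≤ 2 := (Matroid.eRk_le_encard _ _).trans
    ((Set.encard_insert_le _ _).trans (by rw [Set.encard_singleton, one_add_one_eq_two]))
  have h7 : (Fintype.card (Option ({2, 3} : Finset ℕ)) : ℕ∞) ≤ 2 := h5.trans h6
  rw [Fintype.card_option, Fintype.card_coe] at h7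
  exact absurd h7 (by decide)

theorem result :
    -- (1)
    (R 2 0 = Real.pi ^ 2 / 6 ∧ ∀ k : ℕ, 2 ≤ k →
      R k 0 = ∑' n : ℕ, 1 / ((n : ℝ) + 1) ^ k ∧ ∀ x : ℚ, 0 ≤ x → tailIntegral k x = (R k x : ℂ)) ∧
    -- (2)
    (∀ K : Finset ℕ, (∀ k ∈ K, 2 ≤ k) → ∀ S : Finset ℚ,
      (∀ x ∈ S, 0 ≤ x ∧ ¬ AlgebraicIndependent ℚ (tuple K x)) → S.card ≤ K.card) ∧
    -- (3)
    (∀ S : Finset ℚ, (∀ x ∈ S, 0 ≤ x ∧ AlgebraicOverE (R 3 x ^ 2 / R 2 x ^ 3)) → S.card ≤ 2) ∧
    -- (4)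
    (AlgebraicOverE ((∑' n : ℕ, 1 / ((n : ℝ) + 1) ^ 3) / Real.pi ^ 3) → ∀ S : Finset ℚ,
      (∀ x ∈ S, 0 < x ∧ ¬ AlgebraicIndependent ℚ (tuple {2, 3} x)) → S.card ≤ 1) := by
  have z1 : ∀ k : ℕ, 2 ≤ k → R k 0 = ∑' n : ℕ, 1 / ((n : ℝ) + 1) ^ k := by
    intro k hk
    have h1 : tailIntegral k 0 = (Pool.Agent.R352.E.zt k : ℂ) := Pool.Agent.Helper116_EM.tailZ_zero hk
    rw [R, h1, Complex.ofReal_re]
    rfl
  have z2 : R 2 0 = Real.pi ^ 2 / 6 := by
    rw [z1 2 le_rfl]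
    have h1 := hasSum_zeta_two
    have h2 := (hasSum_nat_add_iff' (f := fun n : ℕ => 1 / (n : ℝ) ^ 2) 1).2 h1
    simp only [Finset.sum_range_one, Nat.cast_zero] at h2
    have h3 := h2.tsum_eq
    simp only [Nat.cast_add, Nat.cast_one] at h3
    rw [h3]
    norm_num
  have main : ∀ K : Finset ℕ, (∀ k ∈ K, 2 ≤ k) → ∀ S : Finset ℚ,
      (∀ x ∈ S, 0 ≤ x ∧ ¬ AlgebraicIndependent ℚ (tuple K x)) → S.card ≤ K.card :=
    fun K hK S hS => Pool.Agent.Helper927_jm.few_dependent K hK S hS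
  have h23 : ∀ k ∈ ({2, 3} : Finset ℕ), 2 ≤ k := by
    intro k hk
    have hk' : k = 2 ∨ k = 3 := by simpa using hk
    omega
  have hc : ({2, 3} : Finset ℕ).card = 2 := by decide
  refine ⟨⟨z2, fun k hk => ⟨z1 k hk, fun x hx => ?_⟩⟩, main, fun S hS => ?_, fun h S hS => ?_⟩
  · have h1 : tailIntegral k x = ((Pool.Agent.Helper116_EM.num k (Pool.Agent.Helper116_EM.nmZ x) : ℝ) : ℂ) :=
      (Pool.Agent.Helper116_EM.num_nmZ hk hx).symm
    rw [R, h1, Complex.ofReal_re]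
  · rw [← hc]
    exact main _ h23 S (fun x hx => ⟨(hS x hx).1, ratio_dependent x (hS x hx).2⟩)
  · have h0 : AlgebraicOverE (R 3 0 ^ 2 / R 2 0 ^ 3) := by
      have h1 : R 3 0 ^ 2 / R 2 0 ^ 3 =
          216 * ((∑' n : ℕ, 1 / ((n : ℝ) + 1) ^ 3) / Real.pi ^ 3) ^ 2 := by
        rw [z2, z1 3 (by norm_num)]
        have hpi := Real.pi_ne_zero
        field_simp
        norm_num
      rw [AlgebraicOverE, h1]
      refine IsAlgebraic.mul ?_ (h.pow 2)
      have h9 := isAlgebraic_algebraMap (R := IntermediateField.adjoin ℚ {Real.exp 1}) (A := ℝ)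
        (216 : IntermediateField.adjoin ℚ {Real.exp 1})
      rwa [map_ofNat] at h9
    have h2 : (0 : ℚ) ∉ S := fun h3 => absurd (hS 0 h3).1 (lt_irrefl _)
    have h4 := main _ h23 (insert 0 S) (fun x hx => by
      rcases Finset.mem_insert.1 hx with rfl | hx
      · exact ⟨le_rfl, ratio_dependent 0 h0⟩
      · exact ⟨(hS x hx).1.le, (hS x hx).2⟩)
    rw [Finset.card_insert_of_notMem h2, hc] at h4
    omega

end Pool.Agent.Results.MP_e47f08_nt.TailRatios
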